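import Pool.Agent.H41.SP.Main

namespace Pool.Agent.Results.MP_29035e_co.InvolutionSubspreads

open Module Pool.Agent.H41.SP

/-- Let `F` be a finite field of odd order, `Q` a non-singular quadratic form on an `F`-space `V` of
dimension `4 n + 3`, `n ≥ 1`, and `S` a spread of the parabolic quadric `Q = 0`. If a similitude `t`
of `Q` preserves `S`, is not a scalar, but has scalar square, then `n` is odd and `t` has two
eigenvalues `ε` and `-ε`; the eigenspaces are orthogonal to each other and span `V`, they have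
dimensions `2 n + 1` and `2 n + 2`, and the members of `S` fixed by `t` induce a spread of the
parabolic quadric `Q(2n, q)` on the first and a spread of the hyperbolic quadric `Q+(2n+1, q)` on
the second. -/
theorem result {F : Type*} [Field F] [Finite F] (h2 : (2 : F) ≠ 0)
    {V : Type*} [AddCommGroup V] [Module F V] [Module.Finite F V]
    (Q : QuadraticForm F V) (hQ : NonSing Q)
    (n : ℕ) (hn : 1 ≤ n) (hV : finrank F V = 4 * n + 3)
    (S : Set (Submodule F V)) (hS : IsSpread Q (2 * n + 1) S)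
    (t : V ≃ₗ[F] V) (ht : ∃ μ : F, ∀ x, Q (t x) = μ * Q x)
    (htS : ∀ X ∈ S, X.map (t : V →ₗ[F] V) ∈ S)
    (hsq : ∃ l : F, ∀ x, t (t x) = l • x) (hns : ¬ ∃ c : F, ∀ x, t x = c • x) :
    Odd n ∧ ∃ ε : F, ε ≠ 0 ∧
      IsCompl (eig t ε) (eig t (-ε)) ∧
      (∀ x ∈ eig t ε, ∀ y ∈ eig t (-ε), QuadraticMap.polar Q x y = 0) ∧
      finrank F (eig t ε) = 2 * n + 1 ∧ finrank F (eig t (-ε)) = 2 * n + 2 ∧
      IsSpread (Q.restrict (eig t ε)) n (traceOn (eig t ε) (fixedMembers S t)) ∧
      IsSpread (Q.restrict (eig t (-ε))) (n + 1) (traceOn (eig t (-ε)) (fixedMembers S t)) := by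
  obtain ⟨μ, hμ⟩ := ht
  obtain ⟨l, hl⟩ := hsq
  obtain ⟨hodd, ε, hε0, _, hc, d1, d2, s1, s2, _⟩ := invol h2 hQ hn hV hS t μ hμ htS l hl hns
  exact ⟨hodd, ε, hε0, hc.compl, hc.orth, d1, d2, s1, s2⟩

end Pool.Agent.Results.MP_29035e_co.InvolutionSubspreads
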