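import Pool.Agent.H42.PSR.ASM
import Pool.Agent.H42.PSR.SIM
import Pool.Agent.H12.PSR.DG
import Pool.Agent.H67.PSR.RED
import Pool.Agent.H35.PSR.OCT
import Pool.Agent.H19.PSR.OCI
import Pool.Agent.H19.PSR.TRA
import Pool.Agent.H19.PSR.CNT
import Pool.Agent.H70.PSR.COC
import Pool.Agent.H32.PSR.DIAG

namespace Pool.Agent.Results.MP_29035e_co.LargePartialSpreads

open Module Pool.Agent.H41.SP Pool.Agent.H52.PSR

universe u v

/-- Let `p` be an odd prime, `F` a field with `q = p ^ h` elements, `t ≥ 1`, and `Q` a non-singular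
quadratic form on an `F`-space `V` of dimension `8 t - 1`, so that `Q = 0` is the parabolic quadric
`Q(8t-2, q) = Q(4n+2, q)` with `n = 2t - 1`. There is a partial spread `S` of this quadric (a set of
totally singular subspaces of dimension `4 t - 1 = 2 n + 1`, any two of which meet in the zero
vector only) such that `q ^ (3 t) ≤ |S| * (8 h t) ^ (4 h t)`. -/
theorem result (p h t : ℕ) [Fact p.Prime] {F : Type u} [Field F] [Finite F]
    {V : Type v} [AddCommGroup V] [Module F V] [Module.Finite F V]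
    (Q : QuadraticForm F V) (hp : p ≠ 2) (ht : 1 ≤ t) (hF : Nat.card F = p ^ h)
    (hQ : NonSing Q) (hV : finrank F V = 8 * t - 1) :
    ∃ S : Set (Submodule F V), IsPartialSpread Q (4 * t - 1) S ∧
      Nat.card F ^ (3 * t) ≤ S.ncard * (8 * h * t) ^ (4 * h * t) :=
  Pool.Agent.H42.PSR.pf_ASM
    (Pool.Agent.H70.PSR.pf_COC Pool.Agent.H32.PSR.pf_DIAG)
    (Pool.Agent.H19.PSR.pf_TRA Pool.Agent.H19.PSR.pf_CNT)
    (Pool.Agent.H35.PSR.pf_OCT Pool.Agent.H19.PSR.pf_OCI)
    Pool.Agent.H67.PSR.pf_RED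
    (Pool.Agent.H42.PSR.pf_SIM Pool.Agent.H12.PSR.pf_DG Pool.Agent.H12.PSR.pf_DG)
    p h t F V Q hp ht hF hQ hV

end Pool.Agent.Results.MP_29035e_co.LargePartialSpreads
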