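import Pool.Agent.H41.SP.Main

namespace Pool.Agent.Results.MP_29035e_co.NoTransitiveSpread

open Module Pool.Agent.H41.SP

universe u

/-- Let `F` be a finite field of odd order, `Q` a non-singular quadratic form on an `F`-space `V` of
dimension `4 n + 3` (so that `Q = 0` is the parabolic quadric `Q(4n+2, q)`), where `n + 1` is not a
power of two, and let `S` be a spread of this quadric. Then every group `G` of semisimilarities of
`Q` preserving `S` has an orbit of odd length on `S`, and this orbit is not the whole of `S`. In
particular no such group is transitive on `S`. -/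
theorem result {F : Type*} [Field F] [Finite F] (h2 : (2 : F) ≠ 0)
    {V : Type u} [AddCommGroup V] [Module F V] [Module.Finite F V]
    (Q : QuadraticForm F V) (hQ : NonSing Q)
    (n : ℕ) (hn : ∀ k : ℕ, n + 1 ≠ 2 ^ k) (hV : finrank F V = 4 * n + 3)
    (S : Set (Submodule F V)) (hS : IsSpread Q (2 * n + 1) S)
    (G : Subgroup (Equiv.Perm V)) (hG : ∀ g ∈ G, IsColl Q S g) :
    ∃ X ∈ S, Odd (memberOrbit G S X).ncard ∧ memberOrbit G S X ≠ S :=
  odd_orbit h2 hQ hn hV hS G hG

end Pool.Agent.Results.MP_29035e_co.NoTransitiveSpread
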