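import Pool.Agent.H51.SP.OddN

namespace Pool.Agent.Results.MP_29035e_co.OddPrimeCollineations

open Module Pool.Agent.H41.SP

/-- Let `F` be a finite field of odd order `q`, `Q` a non-singular quadratic form on an `F`-space
`V` of dimension `4 n + 3`, and `S` a spread of the parabolic quadric `Q = 0`. Let `t` be a
similitude of `Q` which preserves `S`, and suppose that `t ^ r` is a scalar for an odd prime `r`
which does not divide `q`. Then `t` has an eigenspace of odd dimension `2 a + 1`, `a = 0` or `a` odd,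
on which `Q` is non-singular and such that
* if `a ≥ 1`, then the members of `S` fixed by `t` induce a spread of the parabolic quadric
  `Q(2a, q)` on this eigenspace, exactly `q ^ a + 1` members are fixed, and `r` divides
  `q ^ (2 n + 1 - a) - 1`;
* if `a = 0`, then either no member is fixed and `r` divides `q ^ (2 n + 1) + 1`, or exactly two
  members are fixed and `r` divides `q ^ (2 n + 1) - 1`. -/
theorem result {F : Type*} [Field F] [Finite F] (h2 : (2 : F) ≠ 0)
    {V : Type*} [AddCommGroup V] [Module F V] [Module.Finite F V]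
    (Q : QuadraticForm F V) (hQ : NonSing Q)
    (n : ℕ) (hV : finrank F V = 4 * n + 3)
    (S : Set (Submodule F V)) (hS : IsSpread Q (2 * n + 1) S)
    (t : V ≃ₗ[F] V) (ht : ∃ μ : F, ∀ x, Q (t x) = μ * Q x)
    (htS : ∀ X ∈ S, X.map (t : V →ₗ[F] V) ∈ S)
    (r : ℕ) (hr : r.Prime) (hr2 : r ≠ 2) (hrF : (r : F) ≠ 0)
    (htr : ∃ l : F, ∀ x, t^[r] x = l • x) :
    ∃ (ε : F) (a : ℕ), ε ≠ 0 ∧ finrank F (eig t ε) = 2 * a + 1 ∧
      NonSing (Q.restrict (eig t ε)) ∧
      (1 ≤ a → Odd a ∧
        IsSpread (Q.restrict (eig t ε)) a (traceOn (eig t ε) (fixedMembers S t)) ∧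
        (fixedMembers S t).ncard = Nat.card F ^ a + 1 ∧
        r ∣ Nat.card F ^ (2 * n + 1 - a) - 1) ∧
      (a = 0 → (fixedMembers S t = ∅ ∧ r ∣ Nat.card F ^ (2 * n + 1) + 1) ∨
        ((fixedMembers S t).ncard = 2 ∧ r ∣ Nat.card F ^ (2 * n + 1) - 1)) := by
  obtain ⟨μ, hμ⟩ := ht
  obtain ⟨l, hl⟩ := htr
  exact Pool.Agent.H51.SPN.odd_sim h2 hQ hV hS hr hr2 hrF μ hμ l hl htS

end Pool.Agent.Results.MP_29035e_co.OddPrimeCollineations
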